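import Pool.Agent.H98.MB.Defs
import Mathlib

set_option linter.style.longLine false

/-! Parameter perturbation of the critical orbit. -/

namespace Pool.Agent.H98.MB

open Finset
open Pool.Agent.H51.IR

variable {c c' : ℂ} {n : ℕ} {r : ℝ}

theorem crit_zero (c : ℂ) : crit c 0 = 0 := rfl

theorem crit_succ (c : ℂ) (j : ℕ) : crit c (j + 1) = crit c j ^ 2 + c := by
  unfold crit
  rw [Function.iterate_succ_apply']
  rfl

theorem crit_one (c : ℂ) : crit c 1 = c := by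
  rw [crit_succ, crit_zero]; ring

theorem A_one (c : ℂ) : A c 1 = 1 := by simp [A]

theorem A_succ (c : ℂ) {j : ℕ} (hj : 1 ≤ j) : A c (j + 1) = A c j * (2 * crit c j) := by
  unfold A
  rw [Finset.prod_Ico_succ_top hj]

theorem A_ne_zero {j : ℕ} (h : ∀ i ∈ Ico 1 j, crit c i ≠ 0) : A c j ≠ 0 := by
  unfold A
  exact Finset.prod_ne_zero_iff.2 fun i hi => mul_ne_zero two_ne_zero (h i hi)

theorem T_one (c : ℂ) : T c 1 = 1 := by simp [T, A_one]

theorem T_succ (c : ℂ) (j : ℕ) : T c (j + 1) = T c j + ‖A c (j + 1)‖⁻¹ := by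
  unfold T
  rw [Finset.sum_Icc_succ_top (by omega)]

theorem T_nonneg (c : ℂ) (j : ℕ) : 0 ≤ T c j :=
  Finset.sum_nonneg fun _ _ => inv_nonneg.2 (norm_nonneg _)

theorem one_le_T (c : ℂ) {j : ℕ} (hj : 1 ≤ j) : 1 ≤ T c j := by
  unfold T
  have h := Finset.single_le_sum (f := fun i => ‖A c i‖⁻¹)
    (fun i _ => inv_nonneg.2 (norm_nonneg (A c i))) (Finset.mem_Icc.2 ⟨le_rfl, hj⟩)
  simpa [A_one] using h

theorem hasDerivAt_crit (c : ℂ) (j : ℕ) : HasDerivAt (fun c => crit c j) (Dp c j) c := by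
  induction j with
  | zero =>
    simp only [crit_zero, Dp]
    exact hasDerivAt_const c 0
  | succ j ih =>
    have h : (fun c => crit c (j + 1)) = fun c => crit c j ^ 2 + c := by
      funext c; exact crit_succ c j
    rw [h]
    have h2 := (ih.pow 2).add (hasDerivAt_id c)
    refine h2.congr_deriv ?_
    simp only [Dp]
    push_cast
    ring

/-- closed form of the parameter derivative -/
theorem Dp_eq (c : ℂ) {j : ℕ} (hj : 1 ≤ j) :
    Dp c j = ∑ i ∈ Icc 1 j, ∏ l ∈ Ico i j, 2 * crit c l := by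
  induction j, hj using Nat.le_induction with
  | base => simp [Dp, crit_zero]
  | succ j hj ih =>
    rw [Dp, ih, Finset.sum_Icc_succ_top (by omega), Finset.Ico_self, Finset.prod_empty, mul_sum]
    congr 1
    refine Finset.sum_congr rfl fun i hi => ?_
    rw [Finset.prod_Ico_succ_top (Finset.mem_Icc.1 hi).2]
    ring

theorem prod_Ico_eq (c : ℂ) {i j : ℕ} (hi : 1 ≤ i) (hij : i ≤ j)
    (h : ∀ l ∈ Ico 1 i, crit c l ≠ 0) : ∏ l ∈ Ico i j, 2 * crit c l = A c j / A c i := by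
  rw [eq_div_iff (A_ne_zero h), mul_comm]
  exact Finset.prod_Ico_consecutive _ hi hij

theorem norm_Dp_le (hn : 1 ≤ n) (hz : ∀ j ∈ Ico 1 n, crit c j ≠ 0) :
    ‖Dp c n‖ ≤ ‖A c n‖ * T c n := by
  rw [Dp_eq c hn, T, mul_sum]
  refine norm_sum_le_of_le _ fun i hi => ?_
  rw [Finset.mem_Icc] at hi
  rw [prod_Ico_eq c hi.1 hi.2 fun l hl => hz l (Finset.Ico_subset_Ico_right hi.2 hl), norm_div,
    div_eq_mul_inv]

/-- first step: control of the orbit by the relative displacements -/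
theorem norm_crit_sub_le (hz : ∀ j ∈ Ico 1 n, crit c j ≠ 0) {j : ℕ} (hj : 1 ≤ j) (hjn : j ≤ n) :
    ‖crit c' j - crit c j‖ ≤ ‖A c j‖ * T c j * ‖c' - c‖ *
      Real.exp ((∑ i ∈ Ico 1 j, ‖crit c' i - crit c i‖ / ‖crit c i‖) / 2) := by
  induction j, hj using Nat.le_induction with
  | base => simp [crit_one, A_one, T_one]
  | succ j hj ih =>
    have ih := ih (by omega)
    have hzj : crit c j ≠ 0 := hz j (Finset.mem_Ico.2 ⟨hj, by omega⟩)
    have hA : A c (j + 1) ≠ 0 :=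
      A_ne_zero fun i hi => hz i (Finset.Ico_subset_Ico_right hjn hi)
    set E : ℝ := Real.exp ((∑ i ∈ Ico 1 j, ‖crit c' i - crit c i‖ / ‖crit c i‖) / 2) with hE
    set ρ : ℝ := ‖crit c' j - crit c j‖ / ‖crit c j‖ with hρ
    have hρ0 : 0 ≤ ρ := by positivity
    have hE1 : 1 ≤ E := Real.one_le_exp (by positivity)
    have hsum : Real.exp ((∑ i ∈ Ico 1 (j + 1), ‖crit c' i - crit c i‖ / ‖crit c i‖) / 2)
        = E * Real.exp (ρ / 2) := by
      rw [Finset.sum_Ico_succ_top hj, add_div, Real.exp_add]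
    rw [hsum]
    have hex : 1 + ρ / 2 ≤ Real.exp (ρ / 2) := by
      have := Real.add_one_le_exp (ρ / 2); linarith
    have h1 : crit c' (j + 1) - crit c (j + 1)
        = (2 * crit c j) * (crit c' j - crit c j) + (crit c' j - crit c j) ^ 2 + (c' - c) := by
      rw [crit_succ, crit_succ]; ring
    have hzp : 0 < ‖crit c j‖ := norm_pos_iff.2 hzj
    have h2 : ‖crit c' j - crit c j‖ = ρ * ‖crit c j‖ := by
      rw [hρ]; field_simp
    have h3 : ‖crit c' (j + 1) - crit c (j + 1)‖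
        ≤ 2 * ‖crit c j‖ * ‖crit c' j - crit c j‖ * (1 + ρ / 2) + ‖c' - c‖ := by
      rw [h1]
      refine (norm_add₃_le).trans ?_
      rw [norm_mul, norm_mul, norm_pow, Complex.norm_two]
      have h4 : ‖crit c' j - crit c j‖ ^ 2 = 2 * ‖crit c j‖ * ‖crit c' j - crit c j‖ * (ρ / 2) := by
        nth_rewrite 1 [h2]
        rw [h2]; ring
      rw [h4]
      linarith
    refine h3.trans ?_
    have hAn : ‖A c (j + 1)‖ = ‖A c j‖ * (2 * ‖crit c j‖) := by
      rw [A_succ c hj, norm_mul, norm_mul, Complex.norm_two]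
    have hAT : ‖A c (j + 1)‖ * T c (j + 1) = ‖A c (j + 1)‖ * T c j + 1 := by
      rw [T_succ, mul_add, mul_inv_cancel₀ (norm_ne_zero_iff.2 hA)]
    rw [hAT]
    have h5 : 2 * ‖crit c j‖ * ‖crit c' j - crit c j‖ * (1 + ρ / 2)
        ≤ 2 * ‖crit c j‖ * (‖A c j‖ * T c j * ‖c' - c‖ * E) * Real.exp (ρ / 2) := by
      refine mul_le_mul ?_ hex (by positivity) ?_
      · exact mul_le_mul_of_nonneg_left ih (by positivity)
      · have := T_nonneg c j
        positivity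
    have h6 : ‖c' - c‖ ≤ ‖c' - c‖ * (E * Real.exp (ρ / 2)) := by
      refine le_mul_of_one_le_right (norm_nonneg _) ?_
      exact one_le_mul_of_one_le_of_one_le hE1 (Real.one_le_exp (by positivity))
    calc _ ≤ 2 * ‖crit c j‖ * (‖A c j‖ * T c j * ‖c' - c‖ * E) * Real.exp (ρ / 2)
          + ‖c' - c‖ * (E * Real.exp (ρ / 2)) := add_le_add h5 h6
      _ = _ := by rw [hAn]; ring

/-- the ratio `θ = |D_n| / (|A_n| T_n)` is at most one -/
theorem theta_le_one (hn : 1 ≤ n) (hz : ∀ j ∈ Ico 1 n, crit c j ≠ 0) :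
    ‖Dp c n‖ / (‖A c n‖ * T c n) ≤ 1 :=
  div_le_one_of_le₀ (norm_Dp_le hn hz) (mul_nonneg (norm_nonneg _) (T_nonneg c n))

/-- second step: the relative displacements are summable -/
theorem sum_rel_le (hn : 1 ≤ n) (hz : ∀ j ∈ Ico 1 n, crit c j ≠ 0) (hr : ‖c' - c‖ ≤ r)
    (hB : r * ∑ j ∈ Ico 1 n, ‖A c j‖ * T c j / ‖crit c j‖
      ≤ 1 / 50 * (‖Dp c n‖ / (‖A c n‖ * T c n))) :
    ∑ j ∈ Ico 1 n, ‖crit c' j - crit c j‖ / ‖crit c j‖
      ≤ 0.021 * (‖Dp c n‖ / (‖A c n‖ * T c n)) := by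
  set θ : ℝ := ‖Dp c n‖ / (‖A c n‖ * T c n) with hθ
  have hθ0 : 0 ≤ θ := div_nonneg (norm_nonneg _) (mul_nonneg (norm_nonneg _) (T_nonneg c n))
  have hθ1 : θ ≤ 1 := theta_le_one hn hz
  have hexp : Real.exp (0.0105 : ℝ) ≤ 1.05 := by
    have h := Real.exp_bound' (x := (0.0105 : ℝ)) (by norm_num) (by norm_num) (n := 2) (by norm_num)
    refine h.trans ?_
    norm_num [Finset.sum_range_succ, Nat.factorial]
  have key : ∀ j, 1 ≤ j → j ≤ n →
      ∑ i ∈ Ico 1 j, ‖crit c' i - crit c i‖ / ‖crit c i‖ ≤ 0.021 * θ := by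
    intro j hj
    induction j, hj using Nat.le_induction with
    | base => intro _; simp; positivity
    | succ j hj ih =>
      intro hjn
      have ih := ih (by omega)
      have h1 : ∀ i ∈ Ico 1 (j + 1), ‖crit c' i - crit c i‖ / ‖crit c i‖
          ≤ 1.05 * r * (‖A c i‖ * T c i / ‖crit c i‖) := by
        intro i hi
        rw [Finset.mem_Ico] at hi
        have h2 := norm_crit_sub_le (c' := c') hz hi.1 (show i ≤ n by omega)
        have h3 : ∑ l ∈ Ico 1 i, ‖crit c' l - crit c l‖ / ‖crit c l‖ ≤ 0.021 := by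
          refine (Finset.sum_le_sum_of_subset_of_nonneg (Finset.Ico_subset_Ico_right
            (show i ≤ j by omega)) fun _ _ _ => by positivity).trans (ih.trans ?_)
          nlinarith
        have h4 : Real.exp ((∑ l ∈ Ico 1 i, ‖crit c' l - crit c l‖ / ‖crit c l‖) / 2) ≤ 1.05 := by
          refine (Real.exp_le_exp.2 ?_).trans hexp
          linarith
        have hT := T_nonneg c i
        have h5 : ‖crit c' i - crit c i‖ ≤ 1.05 * r * (‖A c i‖ * T c i) := by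
          refine h2.trans ?_
          have h6 : ‖A c i‖ * T c i * ‖c' - c‖ ≤ ‖A c i‖ * T c i * r :=
            mul_le_mul_of_nonneg_left hr (by positivity)
          have h7 : 0 ≤ ‖A c i‖ * T c i * ‖c' - c‖ := by positivity
          calc _ ≤ (‖A c i‖ * T c i * r) * 1.05 :=
                mul_le_mul h6 h4 (Real.exp_pos _).le (h7.trans h6)
            _ = _ := by ring
        calc _ ≤ (1.05 * r * (‖A c i‖ * T c i)) / ‖crit c i‖ :=
              div_le_div_of_nonneg_right h5 (norm_nonneg _)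
          _ = _ := by ring
      calc ∑ i ∈ Ico 1 (j + 1), ‖crit c' i - crit c i‖ / ‖crit c i‖
          ≤ ∑ i ∈ Ico 1 (j + 1), 1.05 * r * (‖A c i‖ * T c i / ‖crit c i‖) :=
            Finset.sum_le_sum h1
        _ ≤ ∑ i ∈ Ico 1 n, 1.05 * r * (‖A c i‖ * T c i / ‖crit c i‖) := by
            refine Finset.sum_le_sum_of_subset_of_nonneg (Finset.Ico_subset_Ico_right hjn) ?_
            intro i _ _
            have hT := T_nonneg c i
            have hr0 : 0 ≤ r := (norm_nonneg _).trans hr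
            positivity
        _ = 1.05 * (r * ∑ i ∈ Ico 1 n, ‖A c i‖ * T c i / ‖crit c i‖) := by
            rw [← mul_sum]; ring
        _ ≤ 1.05 * (1 / 50 * θ) := by linarith
        _ = 0.021 * θ := by ring
  exact key n hn le_rfl

theorem exp_sub_one_le {s : ℝ} (hs : 0 ≤ s) (h : s ≤ 0.021) : Real.exp s - 1 ≤ 1.0215 * s := by
  have h1 := Real.exp_bound' hs (by linarith) (n := 2) (by norm_num)
  norm_num [Finset.sum_range_succ, Nat.factorial] at h1
  nlinarith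

/-- third step: the derivatives change little -/
theorem pert (hn : 1 ≤ n) (hz : ∀ j ∈ Ico 1 n, crit c j ≠ 0) (hr : ‖c' - c‖ ≤ r)
    (hB : r * ∑ j ∈ Ico 1 n, ‖A c j‖ * T c j / ‖crit c j‖
      ≤ 1 / 50 * (‖Dp c n‖ / (‖A c n‖ * T c n))) :
    (∀ j ∈ Ico 1 n, crit c' j ≠ 0 ∧ ‖crit c' j - crit c j‖ ≤ 0.021 * ‖crit c j‖) ∧
    (∀ j, j ≤ n → ‖A c' j - A c j‖ ≤ 0.0215 * ‖A c j‖) ∧
    ‖Dp c' n - Dp c n‖ ≤ 0.0215 * ‖Dp c n‖ := by
  set θ : ℝ := ‖Dp c n‖ / (‖A c n‖ * T c n) with hθ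
  have hθ0 : 0 ≤ θ := div_nonneg (norm_nonneg _) (mul_nonneg (norm_nonneg _) (T_nonneg c n))
  have hθ1 : θ ≤ 1 := theta_le_one hn hz
  have hs := sum_rel_le (c' := c') hn hz hr hB
  rw [← hθ] at hs
  set x : ℕ → ℂ := fun j => (crit c' j - crit c j) / crit c j with hx
  have hxn : ∀ j, ‖x j‖ = ‖crit c' j - crit c j‖ / ‖crit c j‖ := fun j => norm_div _ _
  have hsx : ∑ j ∈ Ico 1 n, ‖x j‖ ≤ 0.021 * θ := by simpa only [hxn] using hs
  have hmul : ∀ j ∈ Ico 1 n, 2 * crit c' j = (2 * crit c j) * (1 + x j) := by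
    intro j hj
    have := hz j hj
    simp only [hx]
    field_simp
    ring
  have hprod : ∀ i j, 1 ≤ i → j ≤ n →
      ‖(∏ l ∈ Ico i j, (1 + x l)) - 1‖ ≤ 1.0215 * (0.021 * θ) := by
    intro i j hi hj
    have hsub : Ico i j ⊆ Ico 1 n := Finset.Ico_subset_Ico hi hj
    have h1 : ∑ l ∈ Ico i j, ‖x l‖ ≤ 0.021 * θ :=
      (Finset.sum_le_sum_of_subset_of_nonneg hsub fun _ _ _ => norm_nonneg _).trans hsx
    have h0 : 0 ≤ ∑ l ∈ Ico i j, ‖x l‖ := Finset.sum_nonneg fun _ _ => norm_nonneg _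
    refine (Finset.norm_prod_one_add_sub_one_le _ _).trans ?_
    refine (exp_sub_one_le h0 (h1.trans (by nlinarith))).trans ?_
    linarith
  have hprod2 : ∀ i j, 1 ≤ i → j ≤ n → ∏ l ∈ Ico i j, 2 * crit c' l
      = (∏ l ∈ Ico i j, 2 * crit c l) * ∏ l ∈ Ico i j, (1 + x l) := by
    intro i j hi hj
    rw [← Finset.prod_mul_distrib]
    exact Finset.prod_congr rfl fun l hl => hmul l (Finset.Ico_subset_Ico hi hj hl)
  have hrel : ∀ j ∈ Ico 1 n, ‖crit c' j - crit c j‖ ≤ 0.021 * ‖crit c j‖ := by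
    intro j hj
    have h1 : ‖x j‖ ≤ 0.021 * θ :=
      (Finset.single_le_sum (f := fun j => ‖x j‖) (fun _ _ => norm_nonneg _) hj).trans hsx
    rw [hxn, div_le_iff₀ (norm_pos_iff.2 (hz j hj))] at h1
    refine h1.trans (mul_le_mul_of_nonneg_right ?_ (norm_nonneg _))
    nlinarith
  refine ⟨fun j hj => ⟨?_, hrel j hj⟩, ?_, ?_⟩
  · intro h0
    have h1 := hrel j hj
    rw [h0, zero_sub, norm_neg] at h1
    have := norm_pos_iff.2 (hz j hj)
    linarith
  · intro j hj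
    unfold A
    rw [hprod2 1 j le_rfl hj]
    have h1 : (∏ l ∈ Ico 1 j, 2 * crit c l) * ∏ l ∈ Ico 1 j, (1 + x l)
        - ∏ l ∈ Ico 1 j, 2 * crit c l
        = ((∏ l ∈ Ico 1 j, (1 + x l)) - 1) * ∏ l ∈ Ico 1 j, 2 * crit c l := by ring
    rw [h1, norm_mul]
    refine mul_le_mul_of_nonneg_right ((hprod 1 j le_rfl hj).trans ?_) (norm_nonneg _)
    nlinarith
  · have h1 : ∀ i ∈ Icc 1 n, ‖∏ l ∈ Ico i n, 2 * crit c' l - ∏ l ∈ Ico i n, 2 * crit c l‖
        ≤ 1.0215 * (0.021 * θ) * (‖A c n‖ * ‖A c i‖⁻¹) := by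
      intro i hi
      rw [Finset.mem_Icc] at hi
      rw [hprod2 i n hi.1 le_rfl]
      have h2 : (∏ l ∈ Ico i n, 2 * crit c l) * ∏ l ∈ Ico i n, (1 + x l)
          - ∏ l ∈ Ico i n, 2 * crit c l
          = ((∏ l ∈ Ico i n, (1 + x l)) - 1) * ∏ l ∈ Ico i n, 2 * crit c l := by ring
      rw [h2, norm_mul, prod_Ico_eq c hi.1 hi.2
        fun l hl => hz l (Finset.Ico_subset_Ico_right hi.2 hl), norm_div, div_eq_mul_inv]
      exact mul_le_mul_of_nonneg_right (hprod i n hi.1 le_rfl) (by positivity)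
    have h4 : ‖Dp c' n - Dp c n‖ ≤ 1.0215 * (0.021 * θ) * (‖A c n‖ * T c n) := by
      rw [Dp_eq c' hn, Dp_eq c hn, ← Finset.sum_sub_distrib]
      refine (norm_sum_le_of_le _ h1).trans (le_of_eq ?_)
      rw [← mul_sum, ← mul_sum]
      rfl
    refine h4.trans ?_
    have hA : 0 < ‖A c n‖ := norm_pos_iff.2 (A_ne_zero hz)
    have hT : 0 < T c n := lt_of_lt_of_le one_pos (one_le_T c hn)
    have h3 : θ * (‖A c n‖ * T c n) = ‖Dp c n‖ := by
      rw [hθ]; field_simp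
    nlinarith [norm_nonneg (Dp c n)]

/-- the distortion sum at the perturbed parameter -/
theorem pert_sum (hn : 1 ≤ n) (hz : ∀ j ∈ Ico 1 n, crit c j ≠ 0) (hr : ‖c' - c‖ ≤ r)
    (hB : r * ∑ j ∈ Ico 1 n, ‖A c j‖ * T c j / ‖crit c j‖
      ≤ 1 / 50 * (‖Dp c n‖ / (‖A c n‖ * T c n)))
    (hC : ∑ j ∈ Ico 1 n, ‖A c j‖ / ‖crit c j‖ ≤ ‖A c n‖ ^ 2 / 100) :
    ∑ j ∈ Ico 1 n, ‖A c' j‖ / ‖crit c' j‖ ≤ 0.0112 * ‖A c' n‖ ^ 2 := by
  obtain ⟨h1, h2, -⟩ := pert (c' := c') hn hz hr hB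
  have h3 : ∀ j ∈ Ico 1 n, ‖A c' j‖ / ‖crit c' j‖ ≤ 1.0435 * (‖A c j‖ / ‖crit c j‖) := by
    intro j hj
    have h4 : ‖A c' j‖ ≤ 1.0215 * ‖A c j‖ := by
      have h5 := h2 j (Finset.mem_Ico.1 hj).2.le
      have h6 := norm_le_norm_add_norm_sub' (A c' j) (A c j)
      linarith
    have h7 : 0.979 * ‖crit c j‖ ≤ ‖crit c' j‖ := by
      have h5 := (h1 j hj).2
      have h6 := norm_le_norm_add_norm_sub (crit c' j) (crit c j)
      linarith
    have h8 : 0 < ‖crit c j‖ := norm_pos_iff.2 (hz j hj)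
    have h9 : 0 < ‖crit c' j‖ := norm_pos_iff.2 (h1 j hj).1
    rw [div_le_iff₀ h9]
    have h10 : 1.0435 * (‖A c j‖ / ‖crit c j‖) * ‖crit c' j‖
        ≥ 1.0435 * (‖A c j‖ / ‖crit c j‖) * (0.979 * ‖crit c j‖) :=
      mul_le_mul_of_nonneg_left h7 (by positivity)
    have h11 : 1.0435 * (‖A c j‖ / ‖crit c j‖) * (0.979 * ‖crit c j‖)
        = 1.0435 * 0.979 * ‖A c j‖ := by field_simp
    nlinarith [norm_nonneg (A c j)]
  have h12 : 0.9785 * ‖A c n‖ ≤ ‖A c' n‖ := by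
    have h5 := h2 n le_rfl
    have h6 := norm_le_norm_add_norm_sub (A c' n) (A c n)
    linarith
  have h13 : (0.9785 * ‖A c n‖) ^ 2 ≤ ‖A c' n‖ ^ 2 :=
    pow_le_pow_left₀ (by positivity) h12 2
  calc _ ≤ ∑ j ∈ Ico 1 n, 1.0435 * (‖A c j‖ / ‖crit c j‖) := Finset.sum_le_sum h3
    _ = 1.0435 * ∑ j ∈ Ico 1 n, ‖A c j‖ / ‖crit c j‖ := by rw [mul_sum]
    _ ≤ 1.0435 * (‖A c n‖ ^ 2 / 100) := by linarith
    _ ≤ _ := by nlinarith [sq_nonneg ‖A c n‖]

end Pool.Agent.H98.MB
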