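import Pool.Agent.H98.MB.Near
import Pool.Agent.H47.MB.RowS1

/-! Row P in the form of the head. -/

namespace Pool.Agent.H98.MB

open Pool.Agent.H47.MB

theorem rowP : StatP := fun _ _ hc _ _ h1 h2 => (near hc h1 h2).1

end Pool.Agent.H98.MB
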