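import Pool.Agent.H98.MB.Hole
import Pool.Agent.H47.MB.Defs
import Pool.Agent.H48.MB.Dyn
import Pool.Agent.H10.MB.Dens
import Pool.Agent.H10.MB.Rad
import Pool.Agent.H10.MB.Suff

set_option linter.style.longLine false

/-! Holes near parameters with good close returns, and the area of the set of infinitely
renormalizable parameters of this kind. -/

namespace Pool.Agent.H98.MB

open Finset MeasureTheory
open Pool.Agent.H51.IR Pool.Agent.H47.MB

/-- **The hole near a good time**: a disc of parameters which are not renormalizable with any period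
larger than `n`. -/
theorem hole {K : ℝ} {c : ℂ} {n : ℕ} (hK : 1 ≤ K) (h : CloseReturns K c n) :
    ∃ c₁ : ℂ, ‖c₁ - c‖ ≤ 1.03 * K / (‖A c n‖ * ‖Dp c n‖) ∧
      ∀ c', ‖c' - c₁‖ ≤ 0.12 / (‖A c n‖ * ‖Dp c n‖) → ∀ p, n < p → ¬ IsRenorm p c' := by
  obtain ⟨hn, hz, hD, hA, hB, hC⟩ := h
  have hn1 : 1 ≤ n := by omega
  have hAp : 0 < ‖A c n‖ := norm_pos_iff.2 (A_ne_zero hz)
  have hDpos : 0 < ‖Dp c n‖ := norm_pos_iff.2 hD
  have hT : 0 < T c n := lt_of_lt_of_le one_pos (one_le_T c hn1)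
  have hB' : 2 * K / (‖A c n‖ * ‖Dp c n‖) * ∑ j ∈ Finset.Ico 1 n, ‖A c j‖ * T c j / ‖crit c j‖
      ≤ 1 / 50 * (‖Dp c n‖ / (‖A c n‖ * T c n)) := by
    set S : ℝ := ∑ j ∈ Finset.Ico 1 n, ‖A c j‖ * T c j / ‖crit c j‖
    rw [div_mul_eq_mul_div, div_le_iff₀ (by positivity)]
    have h1 : 1 / 50 * (‖Dp c n‖ / (‖A c n‖ * T c n)) * (‖A c n‖ * ‖Dp c n‖)
        = (‖Dp c n‖ ^ 2 / 50) / T c n := by field_simp
    rw [h1, le_div_iff₀ hT]
    nlinarith
  obtain ⟨c₁, h1, h2⟩ := exists_hole hn1 hz hD hK hA hB'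
  refine ⟨c₁, h1, fun c' hc' p hp => ?_⟩
  obtain ⟨h3, h4⟩ := h2 c' hc'
  have h5 := (pert hn1 hz h3 hB').1
  have h6 := pert_sum hn1 hz h3 hB' hC
  refine Pool.Agent.H48.MB.not_isRenorm_of_small (c := c') (n := n) ?_ hn1 ?_ ?_ hp
  · intro j hj hjn
    exact (h5 j (Finset.mem_Ico.2 ⟨hj, hjn⟩)).1
  · change ∑ j ∈ Finset.Ico 1 n, ‖A c' j‖ / ‖crit c' j‖ ≤ 113 / 10000 * ‖A c' n‖ ^ 2
    refine h6.trans ?_
    have := sq_nonneg ‖A c' n‖
    linarith
  · change ‖crit c' n‖ * ‖A c' n‖ ≤ 13 / 100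
    rw [mul_comm]
    linarith

/-- in particular these parameters are not infinitely renormalizable -/
theorem notMem_infRenorm {c : ℂ} {n : ℕ} (h : ∀ p, n < p → ¬ IsRenorm p c) : c ∉ infRenorm := by
  intro hc
  refine hc ((Set.finite_Iic n).subset ?_)
  intro p hp
  by_contra hnp
  exact h p (not_le.1 hnp) hp

/-- the class, in the form with arbitrarily large good times -/
theorem infinite_iff {K : ℝ} {c : ℂ} :
    {n : ℕ | CloseReturns K c n}.Infinite ↔ ∀ N, ∃ n, N ≤ n ∧ CloseReturns K c n := by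
  rw [Set.infinite_iff_exists_gt]
  constructor
  · intro h N
    obtain ⟨n, hn, hN⟩ := h N
    exact ⟨n, hN.le, hn⟩
  · intro h N
    obtain ⟨n, hN, hn⟩ := h (N + 1)
    exact ⟨n, hn, by omega⟩

/-- (M1) in the form of closed balls -/
theorem hole_ball {K : ℝ} {c : ℂ} {n : ℕ} (hK : 1 ≤ K) (h : CloseReturns K c n) :
    ∃ y : ℂ, Metric.closedBall y (0.06 / K * (2 * K / (‖A c n‖ * ‖Dp c n‖))) ⊆
        Metric.closedBall c (2 * K / (‖A c n‖ * ‖Dp c n‖)) ∧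
      ∀ c' ∈ Metric.closedBall y (0.06 / K * (2 * K / (‖A c n‖ * ‖Dp c n‖))),
        ∀ p, n < p → ¬ IsRenorm p c' := by
  obtain ⟨y, h1, h2⟩ := hole hK h
  have hK0 : 0 < K := by linarith
  set s : ℝ := ‖A c n‖ * ‖Dp c n‖ with hs
  have hs0 : 0 < s := by
    obtain ⟨hn, hz, hD, -⟩ := h
    exact mul_pos (norm_pos_iff.2 (A_ne_zero hz)) (norm_pos_iff.2 hD)
  have h3 : 0.06 / K * (2 * K / s) = 0.12 / s := by
    field_simp
    norm_num
  rw [h3]
  refine ⟨y, Metric.closedBall_subset_closedBall' ?_, fun c' hc' => ?_⟩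
  · rw [dist_eq_norm]
    calc 0.12 / s + ‖y - c‖ ≤ 0.12 / s + 1.03 * K / s := by linarith
      _ = (1.03 * K + 0.12) / s := by ring
      _ ≤ 2 * K / s := div_le_div_of_nonneg_right (by linarith) hs0.le
  · rw [Metric.mem_closedBall, dist_eq_norm] at hc'
    exact h2 c' hc'

/-- **Area.** -/
theorem volume_closeReturns_eq_zero :
    volume {c : ℂ | c ∈ infRenorm ∧ ∃ K : ℝ, 1 ≤ K ∧ {n : ℕ | CloseReturns K c n}.Infinite} = 0 := by
  have key : volume ({c : ℂ | ∃ K : ℝ, 1 ≤ K ∧ {n : ℕ | CloseReturns K c n}.Infinite} ∩ infRenorm) = 0 := by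
    refine Pool.Agent.H10.MB.volume_eq_zero_of_holes ?_
    rintro c ⟨K, hK, hinf⟩
    refine ⟨0.06 / K, by positivity, fun ε hε => ?_⟩
    obtain ⟨n, hn, hAn, hDn, hs⟩ := Pool.Agent.H10.MB.exists_radius_le (z := crit c) (A := A c)
      (D := Dp c) (T := T c) (K := K) (by linarith) (by rw [A_one, norm_one])
      (fun n hn => one_le_T c hn) hinf (fun n hn => hn.1)
      (fun n hn j hj hjn => hn.2.1 j (Finset.mem_Ico.2 ⟨hj, hjn⟩)) (fun n hn => hn.2.2.2.1)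
      (fun n hn => by rw [mul_assoc]; exact hn.2.2.2.2.1) (fun n hn => hn.2.2.2.2.2) (ε := ε / (2 * K)) (by positivity)
    obtain ⟨c₁, h1, h2⟩ := hole hK hn
    set s : ℝ := ‖A c n‖ * ‖Dp c n‖ with hs'
    have hs0 : 0 < s := mul_pos hAn hDn
    refine ⟨2 * K / s, 0.12 / s, c₁, ?_, by positivity, ?_, ?_, ?_⟩
    · calc 2 * K / s = 2 * K * (1 / s) := by ring
        _ ≤ 2 * K * (ε / (2 * K)) := mul_le_mul_of_nonneg_left hs (by positivity)
        _ = ε := by field_simp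
    · refine le_of_eq ?_
      field_simp
      norm_num
    · calc ‖c₁ - c‖ + 0.12 / s ≤ 1.03 * K / s + 0.12 / s := by linarith
        _ = (1.03 * K + 0.12) / s := by ring
        _ ≤ 2 * K / s := div_le_div_of_nonneg_right (by linarith) hs0.le
    · intro z hz
      exact notMem_infRenorm (h2 z hz)
  refine measure_mono_null ?_ key
  rintro c ⟨h1, h2⟩
  exact ⟨h2, h1⟩

/-- (M2) -/
theorem volume_eq_zero : volume {c : ℂ | c ∈ infRenorm ∧
    ∃ K : ℝ, 1 ≤ K ∧ ∀ N, ∃ n, N ≤ n ∧ CloseReturns K c n} = 0 := by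
  simpa only [infinite_iff] using volume_closeReturns_eq_zero

/-- the readable sufficient conditions -/
theorem closeReturns_of_readable {c : ℂ} {K : ℝ} {n : ℕ} (hK : 1 ≤ K) (hn : 2 ≤ n)
    (hA1 : ∀ i ∈ Finset.Icc 1 n, 1 ≤ ‖A c i‖) (hD : ‖A c n‖ / n ≤ ‖Dp c n‖)
    (hz : ∀ j ∈ Finset.Ico 1 n, crit c j ≠ 0) (hA : ‖A c n‖ * ‖crit c n‖ ≤ K)
    (hs : ∀ j ∈ Finset.Ico 1 n, 100 * K * (n : ℝ) ^ 5 * ‖A c j‖ ≤ ‖crit c j‖ * ‖A c n‖ ^ 2) :
    CloseReturns K c n := by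
  obtain ⟨h1, h2, h3⟩ := Pool.Agent.H10.MB.cond_of_readable hK (by omega) hA1 hD hz hs
  exact ⟨hn, hz, h1, hA, by rw [← mul_assoc]; exact h2, h3⟩

end Pool.Agent.H98.MB
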