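import Pool.Agent.H51.IR.Defs

set_option linter.style.longLine false

/-! The critical orbit, the derivatives along it, and the class of parameters. -/

namespace Pool.Agent.H98.MB

open Pool.Agent.H51.IR

/-- the critical orbit `z_j = f_c^j(0)` -/
noncomputable def crit (c : ℂ) (j : ℕ) : ℂ := (quad c)^[j] 0

/-- `A_j = ∏_{1 ≤ i < j} 2 z_i`, the derivative of `f_c^{j-1}` at the critical value `c` -/
noncomputable def A (c : ℂ) (j : ℕ) : ℂ := ∏ i ∈ Finset.Ico 1 j, 2 * crit c i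

/-- `T_j = ∑_{1 ≤ i ≤ j} 1 / |A_i|` -/
noncomputable def T (c : ℂ) (j : ℕ) : ℝ := ∑ i ∈ Finset.Icc 1 j, ‖A c i‖⁻¹

/-- the parameter derivative `D_j = d z_j / d c` -/
noncomputable def Dp (c : ℂ) : ℕ → ℂ
  | 0 => 0
  | j + 1 => 2 * crit c j * Dp c j + 1

end Pool.Agent.H98.MB
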