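import Pool.Agent.H98.MB.Pert

set_option linter.style.longLine false

/-! The zero of `c' ↦ z_n(c')` near `c` and the hole around it. -/

namespace Pool.Agent.H98.MB

open Finset Metric
open Pool.Agent.H51.IR

variable {c c' : ℂ} {n : ℕ} {r K : ℝ}

/-- `z_n` is nearly linear in the parameter -/
theorem crit_lin {D : ℂ} {η : ℝ}
    (hd : ∀ c' ∈ closedBall c r, ‖Dp c' n - D‖ ≤ η) {x y : ℂ} (hx : x ∈ closedBall c r)
    (hy : y ∈ closedBall c r) :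
    ‖crit x n - crit y n - D * (x - y)‖ ≤ η * ‖x - y‖ := by
  have h1 : ∀ z ∈ closedBall c r, HasDerivWithinAt (fun z => crit z n - D * z) (Dp z n - D)
      (closedBall c r) z := by
    intro z _
    have h2 := (hasDerivAt_crit z n).sub ((hasDerivAt_id z).const_mul D)
    simp only [mul_one, id] at h2
    exact h2.hasDerivWithinAt
  have h3 := (convex_closedBall c r).norm_image_sub_le_of_norm_hasDerivWithin_le h1 hd hy hx
  refine le_trans (le_of_eq ?_) h3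
  congr 1
  ring

/-- existence of the zero -/
theorem exists_zero {D : ℂ} (hD : D ≠ 0) {ρ : ℝ} (hρ : 0 ≤ ρ) (hρr : ρ ≤ r)
    (hd : ∀ c' ∈ closedBall c r, ‖Dp c' n - D‖ ≤ 0.0215 * ‖D‖)
    (h : ‖crit c n‖ ≤ 0.9785 * ‖D‖ * ρ) : ∃ c1 ∈ closedBall c ρ, crit c1 n = 0 := by
  set f' : ℂ →L[ℂ] ℂ := D • ContinuousLinearMap.id ℂ ℂ with hf'
  have hf'a : ∀ z, f' z = D * z := fun z => by simp [hf']
  have happ : ApproximatesLinearOn (fun z => crit z n) f' (closedBall c r)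
      ⟨0.0215 * ‖D‖, by positivity⟩ := by
    intro x hx y hy
    rw [hf'a]
    exact crit_lin hd hx hy
  let S : f'.NonlinearRightInverse :=
    { toFun := fun w => w / D
      nnnorm := ‖D‖₊⁻¹
      bound' := fun w => by
        rw [norm_div, NNReal.coe_inv, coe_nnnorm, div_eq_mul_inv, mul_comm]
      right_inv' := fun w => by rw [hf'a]; field_simp }
  have hsurj := happ.surjOn_closedBall_of_nonlinearRightInverse S hρ
    (closedBall_subset_closedBall hρr : closedBall c ρ ⊆ closedBall c r)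
  have h0 : (0 : ℂ) ∈ closedBall (crit c n)
      ((((S.nnnorm : NNReal) : ℝ)⁻¹ - ((⟨0.0215 * ‖D‖, by positivity⟩ : NNReal) : ℝ)) * ρ) := by
    rw [mem_closedBall, dist_eq_norm, zero_sub, norm_neg]
    have hS : ((S.nnnorm : NNReal) : ℝ)⁻¹ = ‖D‖ := by
      simp [S]
    rw [hS]
    refine h.trans (le_of_eq ?_)
    change 0.9785 * ‖D‖ * ρ = (‖D‖ - 0.0215 * ‖D‖) * ρ
    ring
  obtain ⟨c1, hc1, hz⟩ := hsurj h0
  exact ⟨c1, hc1, hz⟩

/-- **The hole.** -/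
theorem exists_hole (hn : 1 ≤ n) (hz : ∀ j ∈ Ico 1 n, crit c j ≠ 0) (hD : Dp c n ≠ 0)
    (hK : 1 ≤ K) (hA : ‖A c n‖ * ‖crit c n‖ ≤ K)
    (hB : 2 * K / (‖A c n‖ * ‖Dp c n‖) * ∑ j ∈ Ico 1 n, ‖A c j‖ * T c j / ‖crit c j‖
      ≤ 1 / 50 * (‖Dp c n‖ / (‖A c n‖ * T c n))) :
    ∃ c1, ‖c1 - c‖ ≤ 1.03 * K / (‖A c n‖ * ‖Dp c n‖) ∧
      ∀ c', ‖c' - c1‖ ≤ 0.12 / (‖A c n‖ * ‖Dp c n‖) →
        ‖c' - c‖ ≤ 2 * K / (‖A c n‖ * ‖Dp c n‖) ∧ ‖A c' n‖ * ‖crit c' n‖ ≤ 0.127 := by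
  have hAp : 0 < ‖A c n‖ := norm_pos_iff.2 (A_ne_zero hz)
  have hDpos : 0 < ‖Dp c n‖ := norm_pos_iff.2 hD
  set s : ℝ := ‖A c n‖ * ‖Dp c n‖ with hs
  have hs0 : 0 < s := mul_pos hAp hDpos
  have hd : ∀ c' ∈ closedBall c (2 * K / s), ‖Dp c' n - Dp c n‖ ≤ 0.0215 * ‖Dp c n‖ := by
    intro c' hc'
    rw [mem_closedBall, dist_eq_norm] at hc'
    exact (pert hn hz hc' hB).2.2
  have hρr : 1.03 * K / s ≤ 2 * K / s := by
    refine div_le_div_of_nonneg_right ?_ hs0.le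
    linarith
  obtain ⟨c1, hc1, hc10⟩ := exists_zero hD (ρ := 1.03 * K / s) (by positivity) hρr hd (by
    have h1 : 0.9785 * ‖Dp c n‖ * (1.03 * K / s) = 0.9785 * 1.03 * (K / ‖A c n‖) := by
      rw [hs]; field_simp
    rw [h1]
    have h2 : ‖crit c n‖ ≤ K / ‖A c n‖ := by
      rw [le_div_iff₀ hAp]; linarith
    have h3 : 0 ≤ K / ‖A c n‖ := by positivity
    linarith)
  rw [mem_closedBall, dist_eq_norm] at hc1
  refine ⟨c1, hc1, fun c' hc' => ?_⟩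
  have h12 : ‖c' - c‖ ≤ 2 * K / s := by
    have h1 : ‖c' - c‖ ≤ ‖c' - c1‖ + ‖c1 - c‖ := norm_sub_le_norm_sub_add_norm_sub c' c1 c
    have h2 : 0.12 / s + 1.03 * K / s ≤ 2 * K / s := by
      rw [← add_div]
      refine div_le_div_of_nonneg_right ?_ hs0.le
      linarith
    linarith
  refine ⟨h12, ?_⟩
  have h3 := (pert hn hz h12 hB).2.1 n le_rfl
  have h4 : ‖A c' n‖ ≤ 1.0215 * ‖A c n‖ := by
    have h6 := norm_le_norm_add_norm_sub' (A c' n) (A c n)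
    linarith
  have h5 := crit_lin hd (x := c') (y := c1) (by rwa [mem_closedBall, dist_eq_norm])
    (by rw [mem_closedBall, dist_eq_norm]; exact hc1.trans hρr)
  rw [hc10, sub_zero] at h5
  have h6 : ‖crit c' n‖ ≤ 1.0215 * ‖Dp c n‖ * ‖c' - c1‖ := by
    have h7 := norm_le_norm_add_norm_sub' (crit c' n) (Dp c n * (c' - c1))
    rw [norm_mul] at h7
    linarith
  have h8 : ‖crit c' n‖ ≤ 1.0215 * 0.12 / ‖A c n‖ := by
    refine h6.trans ?_
    calc 1.0215 * ‖Dp c n‖ * ‖c' - c1‖ ≤ 1.0215 * ‖Dp c n‖ * (0.12 / s) :=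
          mul_le_mul_of_nonneg_left hc' (by positivity)
      _ = _ := by rw [hs]; field_simp
  calc ‖A c' n‖ * ‖crit c' n‖ ≤ (1.0215 * ‖A c n‖) * (1.0215 * 0.12 / ‖A c n‖) :=
        mul_le_mul h4 h8 (norm_nonneg _) (by positivity)
    _ = 1.0215 * 1.0215 * 0.12 := by field_simp
    _ ≤ 0.127 := by norm_num

end Pool.Agent.H98.MB
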