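import Pool.Agent.H98.MB.Pert
import Pool.Agent.H47.MB.Defs

set_option linter.style.longLine false

/-! Row P: an orbit close to the critical orbit of a centre. -/

namespace Pool.Agent.H98.MB

open Finset
open Pool.Agent.H51.IR Pool.Agent.H47.MB

variable {c c' x : ℂ} {n : ℕ}

theorem it_succ (c' x : ℂ) (j : ℕ) : (quad c')^[j + 1] x = ((quad c')^[j] x) ^ 2 + c' := by
  rw [Function.iterate_succ_apply']
  rfl

theorem it_one (c' x : ℂ) : (quad c')^[1] x = x ^ 2 + c' := rfl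

theorem T_mono (c : ℂ) {i j : ℕ} (h : i ≤ j) : T c i ≤ T c j := by
  unfold T
  exact Finset.sum_le_sum_of_subset_of_nonneg (Finset.Icc_subset_Icc_right h)
    fun _ _ _ => inv_nonneg.2 (norm_nonneg _)

/-- control of the orbit by the relative displacements -/
theorem norm_it_sub_le (hz : ∀ j ∈ Ico 1 n, crit c j ≠ 0) {j : ℕ} (hj : 1 ≤ j) (hjn : j ≤ n) :
    ‖(quad c')^[j] x - crit c j‖ ≤ ‖A c j‖ * (T c j * ‖c' - c‖ + ‖x‖ ^ 2) *
      Real.exp ((∑ i ∈ Ico 1 j, ‖(quad c')^[i] x - crit c i‖ / ‖crit c i‖) / 2) := by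
  induction j, hj using Nat.le_induction with
  | base =>
    rw [it_one, crit_one, A_one, T_one, Finset.Ico_self, Finset.sum_empty, zero_div, Real.exp_zero,
      norm_one, one_mul, one_mul, mul_one]
    have h : x ^ 2 + c' - c = (c' - c) + x ^ 2 := by ring
    rw [h]
    refine (norm_add_le _ _).trans ?_
    rw [norm_pow]
  | succ j hj ih =>
    have ih := ih (by omega)
    have hzj : crit c j ≠ 0 := hz j (Finset.mem_Ico.2 ⟨hj, by omega⟩)
    have hA : A c (j + 1) ≠ 0 :=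
      A_ne_zero fun i hi => hz i (Finset.Ico_subset_Ico_right hjn hi)
    set E : ℝ := Real.exp ((∑ i ∈ Ico 1 j, ‖(quad c')^[i] x - crit c i‖ / ‖crit c i‖) / 2) with hE
    set ρ : ℝ := ‖(quad c')^[j] x - crit c j‖ / ‖crit c j‖ with hρ
    have hρ0 : 0 ≤ ρ := by positivity
    have hE1 : 1 ≤ E := Real.one_le_exp (by positivity)
    have hsum : Real.exp ((∑ i ∈ Ico 1 (j + 1), ‖(quad c')^[i] x - crit c i‖ / ‖crit c i‖) / 2)
        = E * Real.exp (ρ / 2) := by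
      rw [Finset.sum_Ico_succ_top hj, add_div, Real.exp_add]
    rw [hsum]
    have hex : 1 + ρ / 2 ≤ Real.exp (ρ / 2) := by
      have := Real.add_one_le_exp (ρ / 2); linarith
    have h1 : (quad c')^[j + 1] x - crit c (j + 1)
        = (2 * crit c j) * ((quad c')^[j] x - crit c j) + ((quad c')^[j] x - crit c j) ^ 2
          + (c' - c) := by
      rw [it_succ, crit_succ]; ring
    have hzp : 0 < ‖crit c j‖ := norm_pos_iff.2 hzj
    have h2 : ‖(quad c')^[j] x - crit c j‖ = ρ * ‖crit c j‖ := by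
      rw [hρ]; field_simp
    have h3 : ‖(quad c')^[j + 1] x - crit c (j + 1)‖
        ≤ 2 * ‖crit c j‖ * ‖(quad c')^[j] x - crit c j‖ * (1 + ρ / 2) + ‖c' - c‖ := by
      rw [h1]
      refine (norm_add₃_le).trans ?_
      rw [norm_mul, norm_mul, norm_pow, Complex.norm_two]
      have h4 : ‖(quad c')^[j] x - crit c j‖ ^ 2
          = 2 * ‖crit c j‖ * ‖(quad c')^[j] x - crit c j‖ * (ρ / 2) := by
        nth_rewrite 1 [h2]
        rw [h2]; ring
      rw [h4]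
      linarith
    refine h3.trans ?_
    have hAn : ‖A c (j + 1)‖ = ‖A c j‖ * (2 * ‖crit c j‖) := by
      rw [A_succ c hj, norm_mul, norm_mul, Complex.norm_two]
    have hAT : ‖A c (j + 1)‖ * (T c (j + 1) * ‖c' - c‖ + ‖x‖ ^ 2)
        = ‖A c (j + 1)‖ * (T c j * ‖c' - c‖ + ‖x‖ ^ 2) + ‖c' - c‖ := by
      have h5 : ‖A c (j + 1)‖ * ‖A c (j + 1)‖⁻¹ = 1 := mul_inv_cancel₀ (norm_ne_zero_iff.2 hA)
      rw [T_succ]
      linear_combination ‖c' - c‖ * h5
    rw [hAT]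
    have hT := T_nonneg c j
    have h5 : 2 * ‖crit c j‖ * ‖(quad c')^[j] x - crit c j‖ * (1 + ρ / 2)
        ≤ 2 * ‖crit c j‖ * (‖A c j‖ * (T c j * ‖c' - c‖ + ‖x‖ ^ 2) * E) * Real.exp (ρ / 2) := by
      refine mul_le_mul ?_ hex (by positivity) (by positivity)
      exact mul_le_mul_of_nonneg_left ih (by positivity)
    have h6 : ‖c' - c‖ ≤ ‖c' - c‖ * (E * Real.exp (ρ / 2)) := by
      refine le_mul_of_one_le_right (norm_nonneg _) ?_
      exact one_le_mul_of_one_le_of_one_le hE1 (Real.one_le_exp (by positivity))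
    calc _ ≤ 2 * ‖crit c j‖ * (‖A c j‖ * (T c j * ‖c' - c‖ + ‖x‖ ^ 2) * E) * Real.exp (ρ / 2)
          + ‖c' - c‖ * (E * Real.exp (ρ / 2)) := add_le_add h5 h6
      _ = _ := by rw [hAn]; ring

/-- the relative displacements are summable -/
theorem sum_it_rel_le {θ : ℝ} (hθ0 : 0 ≤ θ) (hθ1 : θ ≤ 1) (hn : 1 ≤ n)
    (hz : ∀ j ∈ Ico 1 n, crit c j ≠ 0)
    (hB : (T c n * ‖c' - c‖ + ‖x‖ ^ 2) * ∑ j ∈ Ico 1 n, ‖A c j‖ / ‖crit c j‖ ≤ 0.0028 * θ) :
    ∑ j ∈ Ico 1 n, ‖(quad c')^[j] x - crit c j‖ / ‖crit c j‖ ≤ 0.00283 * θ := by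
  have hexp : Real.exp (0.0015 : ℝ) ≤ 1.01 := by
    have h := Real.exp_bound' (x := (0.0015 : ℝ)) (by norm_num) (by norm_num) (n := 2) (by norm_num)
    refine h.trans ?_
    norm_num [Finset.sum_range_succ, Nat.factorial]
  have hTn := T_nonneg c n
  have key : ∀ j, 1 ≤ j → j ≤ n →
      ∑ i ∈ Ico 1 j, ‖(quad c')^[i] x - crit c i‖ / ‖crit c i‖ ≤ 0.00283 * θ := by
    intro j hj
    induction j, hj using Nat.le_induction with
    | base => intro _; simp; positivity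
    | succ j hj ih =>
      intro hjn
      have ih := ih (by omega)
      have h1 : ∀ i ∈ Ico 1 (j + 1), ‖(quad c')^[i] x - crit c i‖ / ‖crit c i‖
          ≤ 1.01 * (T c n * ‖c' - c‖ + ‖x‖ ^ 2) * (‖A c i‖ / ‖crit c i‖) := by
        intro i hi
        rw [Finset.mem_Ico] at hi
        have h2 := norm_it_sub_le (c' := c') (x := x) hz hi.1 (show i ≤ n by omega)
        have h3 : ∑ l ∈ Ico 1 i, ‖(quad c')^[l] x - crit c l‖ / ‖crit c l‖ ≤ 0.00283 := by
          refine (Finset.sum_le_sum_of_subset_of_nonneg (Finset.Ico_subset_Ico_right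
            (show i ≤ j by omega)) fun _ _ _ => by positivity).trans (ih.trans ?_)
          nlinarith
        have h4 : Real.exp ((∑ l ∈ Ico 1 i, ‖(quad c')^[l] x - crit c l‖ / ‖crit c l‖) / 2)
            ≤ 1.01 := by
          refine (Real.exp_le_exp.2 ?_).trans hexp
          linarith
        have hT := T_nonneg c i
        have hTi : T c i ≤ T c n := T_mono c (by omega)
        have h5 : ‖(quad c')^[i] x - crit c i‖
            ≤ 1.01 * (T c n * ‖c' - c‖ + ‖x‖ ^ 2) * ‖A c i‖ := by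
          refine h2.trans ?_
          have h6 : ‖A c i‖ * (T c i * ‖c' - c‖ + ‖x‖ ^ 2)
              ≤ ‖A c i‖ * (T c n * ‖c' - c‖ + ‖x‖ ^ 2) := by gcongr
          have h7 : 0 ≤ ‖A c i‖ * (T c i * ‖c' - c‖ + ‖x‖ ^ 2) := by positivity
          calc _ ≤ (‖A c i‖ * (T c n * ‖c' - c‖ + ‖x‖ ^ 2)) * 1.01 :=
                mul_le_mul h6 h4 (Real.exp_pos _).le (h7.trans h6)
            _ = _ := by ring
        calc _ ≤ (1.01 * (T c n * ‖c' - c‖ + ‖x‖ ^ 2) * ‖A c i‖) / ‖crit c i‖ :=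
              div_le_div_of_nonneg_right h5 (norm_nonneg _)
          _ = _ := by ring
      calc ∑ i ∈ Ico 1 (j + 1), ‖(quad c')^[i] x - crit c i‖ / ‖crit c i‖
          ≤ ∑ i ∈ Ico 1 (j + 1), 1.01 * (T c n * ‖c' - c‖ + ‖x‖ ^ 2) * (‖A c i‖ / ‖crit c i‖) :=
            Finset.sum_le_sum h1
        _ ≤ ∑ i ∈ Ico 1 n, 1.01 * (T c n * ‖c' - c‖ + ‖x‖ ^ 2) * (‖A c i‖ / ‖crit c i‖) := by
            refine Finset.sum_le_sum_of_subset_of_nonneg (Finset.Ico_subset_Ico_right hjn) ?_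
            intro i _ _
            positivity
        _ = 1.01 * ((T c n * ‖c' - c‖ + ‖x‖ ^ 2) * ∑ i ∈ Ico 1 n, ‖A c i‖ / ‖crit c i‖) := by
            rw [← mul_sum]; ring
        _ ≤ 1.01 * (0.0028 * θ) := by linarith
        _ ≤ 0.00283 * θ := by linarith
  exact key n hn le_rfl

theorem exp_sub_one_le' {s : ℝ} (hs : 0 ≤ s) (h : s ≤ 0.00283) : Real.exp s - 1 ≤ 1.003 * s := by
  have h1 := Real.exp_bound' hs (by linarith) (n := 2) (by norm_num)
  norm_num [Finset.sum_range_succ, Nat.factorial] at h1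
  nlinarith

/-- closed form of an orbit difference -/
theorem it_sub_eq (c c' x : ℂ) {j : ℕ} (hj : 1 ≤ j) :
    (quad c')^[j] x - crit c j
      = (∑ i ∈ Icc 1 j, (c' - c) * ∏ l ∈ Ico i j, ((quad c')^[l] x + crit c l))
        + x ^ 2 * ∏ l ∈ Ico 1 j, ((quad c')^[l] x + crit c l) := by
  induction j, hj using Nat.le_induction with
  | base =>
    rw [it_one, crit_one, Finset.Icc_self, Finset.sum_singleton, Finset.Ico_self,
      Finset.prod_empty]
    ring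
  | succ j hj ih =>
    rw [Finset.sum_Icc_succ_top (by omega), Finset.Ico_self, Finset.prod_empty,
      Finset.prod_Ico_succ_top hj]
    have h1 : ∑ i ∈ Icc 1 j, (c' - c) * ∏ l ∈ Ico i (j + 1), ((quad c')^[l] x + crit c l)
        = (∑ i ∈ Icc 1 j, (c' - c) * ∏ l ∈ Ico i j, ((quad c')^[l] x + crit c l))
          * ((quad c')^[j] x + crit c j) := by
      rw [sum_mul]
      refine Finset.sum_congr rfl fun i hi => ?_
      rw [Finset.prod_Ico_succ_top (Finset.mem_Icc.1 hi).2]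
      ring
    rw [h1, it_succ, crit_succ]
    linear_combination ((quad c')^[j] x + crit c j) * ih

/-- **Row P.** -/
theorem near (hc : Centre c n) (h1 : ‖A c n‖ * ‖Dp c n‖ * ‖c' - c‖ ≤ 3) (h2 : ‖A c n‖ * ‖x‖ ≤ 5) :
    Near c n c' x ∧ ‖Dp c' n - Dp c n‖ ≤ 0.005 * ‖Dp c n‖ ∧
      ∑ j ∈ Ico 1 n, ‖crit c' j - crit c j‖ / ‖crit c j‖ ≤ 0.005 := by
  obtain ⟨hn, hz, hzero, hD, hsm⟩ := hc
  have hAp : 0 < ‖A c n‖ := norm_pos_iff.2 (A_ne_zero hz)
  have hDpos : 0 < ‖Dp c n‖ := norm_pos_iff.2 hD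
  have hT : 0 < T c n := lt_of_lt_of_le one_pos (one_le_T c hn)
  set θ : ℝ := ‖Dp c n‖ / (‖A c n‖ * T c n) with hθ
  have hθ0 : 0 ≤ θ := by positivity
  have hθ1 : θ ≤ 1 := theta_le_one hn hz
  have hθm : θ * (‖A c n‖ * T c n) = ‖Dp c n‖ := by rw [hθ]; field_simp
  set S : ℝ := ∑ j ∈ Ico 1 n, ‖A c j‖ / ‖crit c j‖ with hS
  have hS0 : 0 ≤ S := Finset.sum_nonneg fun _ _ => by positivity
  have hSle : S ≤ 1 / 10 ^ 4 * ‖Dp c n‖ ^ 2 / T c n ^ 2 := by
    rw [le_div_iff₀ (by positivity)]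
    nlinarith
  have hd : ‖c' - c‖ ≤ 3 / (‖A c n‖ * ‖Dp c n‖) := by
    rw [le_div_iff₀ (by positivity)]; linarith
  have hx : ‖x‖ ^ 2 ≤ 25 / ‖A c n‖ ^ 2 := by
    rw [le_div_iff₀ (by positivity), ← mul_pow]
    have : (‖x‖ * ‖A c n‖) ^ 2 ≤ 5 ^ 2 := pow_le_pow_left₀ (by positivity) (by linarith) 2
    linarith
  -- the general smallness hypothesis, for every `y` with `|A| |y| ≤ 5`
  have hgen : ∀ y : ℂ, ‖y‖ ^ 2 ≤ 25 / ‖A c n‖ ^ 2 →
      (T c n * ‖c' - c‖ + ‖y‖ ^ 2) * S ≤ 0.0028 * θ := by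
    intro y hy
    have h3 : T c n * ‖c' - c‖ + ‖y‖ ^ 2
        ≤ T c n * (3 / (‖A c n‖ * ‖Dp c n‖)) + 25 / ‖A c n‖ ^ 2 := by gcongr
    have h4 : (T c n * ‖c' - c‖ + ‖y‖ ^ 2) * S
        ≤ (T c n * (3 / (‖A c n‖ * ‖Dp c n‖)) + 25 / ‖A c n‖ ^ 2)
          * (1 / 10 ^ 4 * ‖Dp c n‖ ^ 2 / T c n ^ 2) := by
      refine mul_le_mul h3 hSle hS0 (by positivity)
    refine h4.trans ?_
    have h5 : (T c n * (3 / (‖A c n‖ * ‖Dp c n‖)) + 25 / ‖A c n‖ ^ 2)
          * (1 / 10 ^ 4 * ‖Dp c n‖ ^ 2 / T c n ^ 2) = 0.0003 * θ + 0.0025 * θ ^ 2 := by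
      rw [hθ]; field_simp; ring
    rw [h5]
    nlinarith
  have hs := sum_it_rel_le (c' := c') (x := x) hθ0 hθ1 hn hz (hgen x hx)
  have hs0 := sum_it_rel_le (c' := c') (x := 0) hθ0 hθ1 hn hz (hgen 0 (by
    rw [norm_zero, zero_pow two_ne_zero]; positivity))
  have hcrit : ∀ j, (quad c')^[j] 0 = crit c' j := fun _ => rfl
  simp only [hcrit] at hs0
  -- products
  have hprodgen : ∀ (w : ℕ → ℂ) (κ : ℝ), 0 ≤ κ → κ ≤ 1 →
      (∑ j ∈ Ico 1 n, ‖w j / crit c j‖ ≤ κ * (0.00283 * θ)) →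
      ∀ i j, 1 ≤ i → j ≤ n → ‖(∏ l ∈ Ico i j, (1 + w l / crit c l)) - 1‖
        ≤ 1.003 * (κ * (0.00283 * θ)) := by
    intro w κ hκ0 hκ1 hw i j hi hj
    have hsub : Ico i j ⊆ Ico 1 n := Finset.Ico_subset_Ico hi hj
    have h1 : ∑ l ∈ Ico i j, ‖w l / crit c l‖ ≤ κ * (0.00283 * θ) :=
      (Finset.sum_le_sum_of_subset_of_nonneg hsub fun _ _ _ => norm_nonneg _).trans hw
    have h0 : 0 ≤ ∑ l ∈ Ico i j, ‖w l / crit c l‖ := Finset.sum_nonneg fun _ _ => norm_nonneg _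
    have h2 : κ * (0.00283 * θ) ≤ 0.00283 := by
      have : 0.00283 * θ ≤ 0.00283 := by linarith
      calc κ * (0.00283 * θ) ≤ 1 * 0.00283 := mul_le_mul hκ1 this (by positivity) (by norm_num)
        _ = _ := by norm_num
    refine (Finset.norm_prod_one_add_sub_one_le _ _).trans ?_
    refine (exp_sub_one_le' h0 (h1.trans h2)).trans ?_
    linarith
  have hAi : ∀ i j, 1 ≤ i → i ≤ j → j ≤ n → ∏ l ∈ Ico i j, 2 * crit c l = A c j / A c i :=
    fun i j hi hij hj => prod_Ico_eq c hi hij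
      fun l hl => hz l (Finset.Ico_subset_Ico_right (hij.trans hj) hl)
  have hw1 : ∑ j ∈ Ico 1 n, ‖((quad c')^[j] x - crit c j) / crit c j‖ ≤ 1 * (0.00283 * θ) := by
    simpa only [norm_div, one_mul] using hs
  have hw2 : ∑ j ∈ Ico 1 n, ‖(((quad c')^[j] x - crit c j) / 2) / crit c j‖
      ≤ 1 / 2 * (0.00283 * θ) := by
    have h3 : ∀ j, ‖(((quad c')^[j] x - crit c j) / 2) / crit c j‖
        = 1 / 2 * (‖(quad c')^[j] x - crit c j‖ / ‖crit c j‖) := by
      intro j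
      rw [norm_div, norm_div, Complex.norm_two]
      ring
    simp only [h3]
    rw [← mul_sum]
    linarith
  have hw3 : ∑ j ∈ Ico 1 n, ‖(crit c' j - crit c j) / crit c j‖ ≤ 1 * (0.00283 * θ) := by
    simpa only [norm_div, one_mul] using hs0
  have hP1 := hprodgen (fun j => (quad c')^[j] x - crit c j) 1 zero_le_one le_rfl hw1
  have hP2 := hprodgen (fun j => ((quad c')^[j] x - crit c j) / 2) (1 / 2) (by norm_num)
    (by norm_num) hw2
  have hP3 := hprodgen (fun j => crit c' j - crit c j) 1 zero_le_one le_rfl hw3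
  refine ⟨⟨?_, ?_, ?_⟩, ?_, ?_⟩
  · -- orbit
    intro j hj
    have h3 : ‖(quad c')^[j] x - crit c j‖ / ‖crit c j‖ ≤ 0.00283 * θ :=
      (Finset.single_le_sum (f := fun j => ‖(quad c')^[j] x - crit c j‖ / ‖crit c j‖)
        (fun _ _ => by positivity) hj).trans hs
    rw [div_le_iff₀ (norm_pos_iff.2 (hz j hj))] at h3
    refine h3.trans (mul_le_mul_of_nonneg_right ?_ (norm_nonneg _))
    linarith
  · -- products
    intro j hj
    rw [Finset.mem_Icc] at hj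
    have h3 : B c' x j = A c j * ∏ l ∈ Ico 1 j, (1 + ((quad c')^[l] x - crit c l) / crit c l) := by
      unfold B A
      rw [← Finset.prod_mul_distrib]
      refine Finset.prod_congr rfl fun l hl => ?_
      have := hz l (Finset.Ico_subset_Ico_right hj.2 hl)
      field_simp
      ring
    have h4 : B c' x j - A c j = A c j *
        ((∏ l ∈ Ico 1 j, (1 + ((quad c')^[l] x - crit c l) / crit c l)) - 1) := by
      rw [h3]; ring
    rw [h4, norm_mul]
    have h5 := hP1 1 j le_rfl hj.2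
    calc ‖A c j‖ * ‖(∏ l ∈ Ico 1 j, (1 + ((quad c')^[l] x - crit c l) / crit c l)) - 1‖
          * (‖A c n‖ * T c n)
        ≤ ‖A c j‖ * (1.003 * (1 * (0.00283 * θ))) * (‖A c n‖ * T c n) := by gcongr
      _ = 1.003 * 0.00283 * ‖A c j‖ * (θ * (‖A c n‖ * T c n)) := by ring
      _ = 1.003 * 0.00283 * ‖A c j‖ * ‖Dp c n‖ := by rw [hθm]
      _ ≤ 0.005 * ‖A c j‖ * ‖Dp c n‖ := by gcongr; norm_num
  · -- value
    have hsub := it_sub_eq c c' x hn
    rw [hzero, sub_zero] at hsub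
    have h3 : ∀ i, 1 ≤ i → i ≤ n → ∏ l ∈ Ico i n, ((quad c')^[l] x + crit c l)
        = A c n / A c i *
          ∏ l ∈ Ico i n, (1 + (((quad c')^[l] x - crit c l) / 2) / crit c l) := by
      intro i hi hin
      rw [← hAi i n hi hin le_rfl, ← Finset.prod_mul_distrib]
      refine Finset.prod_congr rfl fun l hl => ?_
      have := hz l (Finset.Ico_subset_Ico_left hi hl)
      field_simp
      ring
    have hDe := Dp_eq c hn
    have h4 : (quad c')^[n] x - (Dp c n * (c' - c) + A c n * x ^ 2)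
        = (∑ i ∈ Icc 1 n, (c' - c) * (A c n / A c i *
            ((∏ l ∈ Ico i n, (1 + (((quad c')^[l] x - crit c l) / 2) / crit c l)) - 1)))
          + x ^ 2 * (A c n *
            ((∏ l ∈ Ico 1 n, (1 + (((quad c')^[l] x - crit c l) / 2) / crit c l)) - 1)) := by
      rw [hsub, hDe, sum_mul]
      have h5 : ∑ i ∈ Icc 1 n, (c' - c) * ∏ l ∈ Ico i n, ((quad c')^[l] x + crit c l)
          = (∑ i ∈ Icc 1 n, (c' - c) * (A c n / A c i *
            ((∏ l ∈ Ico i n, (1 + (((quad c')^[l] x - crit c l) / 2) / crit c l)) - 1)))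
            + ∑ i ∈ Icc 1 n, (∏ l ∈ Ico i n, 2 * crit c l) * (c' - c) := by
        rw [← Finset.sum_add_distrib]
        refine Finset.sum_congr rfl fun i hi => ?_
        rw [Finset.mem_Icc] at hi
        rw [h3 i hi.1 hi.2, hAi i n hi.1 hi.2 le_rfl]
        ring
      rw [h5, h3 1 le_rfl hn, A_one, div_one]
      ring
    have h6 : ‖(quad c')^[n] x - (Dp c n * (c' - c) + A c n * x ^ 2)‖
        ≤ 1.003 * (1 / 2 * (0.00283 * θ)) * (‖A c n‖ * T c n * ‖c' - c‖ + ‖A c n‖ * ‖x‖ ^ 2) := by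
      rw [h4]
      refine (norm_add_le _ _).trans ?_
      rw [mul_add]
      refine add_le_add ?_ ?_
      · refine (norm_sum_le_of_le (f := fun i => (c' - c) * (A c n / A c i *
            ((∏ l ∈ Ico i n, (1 + (((quad c')^[l] x - crit c l) / 2) / crit c l)) - 1)))
          (n := fun i => 1.003 * (1 / 2 * (0.00283 * θ)) * (‖A c n‖ * ‖A c i‖⁻¹ * ‖c' - c‖)) _
          ?_).trans (le_of_eq ?_)
        · intro i hi
          rw [Finset.mem_Icc] at hi
          rw [norm_mul, norm_mul, norm_div, div_eq_mul_inv]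
          have h7 := hP2 i n hi.1 le_rfl
          calc ‖c' - c‖ * (‖A c n‖ * ‖A c i‖⁻¹ *
                ‖(∏ l ∈ Ico i n, (1 + (((quad c')^[l] x - crit c l) / 2) / crit c l)) - 1‖)
              ≤ ‖c' - c‖ * (‖A c n‖ * ‖A c i‖⁻¹ * (1.003 * (1 / 2 * (0.00283 * θ)))) := by gcongr
            _ = _ := by ring
        · unfold T
          rw [← mul_sum, ← sum_mul, ← mul_sum]
      · rw [norm_mul, norm_mul, norm_pow]
        have h7 := hP2 1 n le_rfl le_rfl
        calc ‖x‖ ^ 2 * (‖A c n‖ *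
              ‖(∏ l ∈ Ico 1 n, (1 + (((quad c')^[l] x - crit c l) / 2) / crit c l)) - 1‖)
            ≤ ‖x‖ ^ 2 * (‖A c n‖ * (1.003 * (1 / 2 * (0.00283 * θ)))) := by gcongr
          _ = _ := by ring
    have h8 : A c n * (quad c')^[n] x - (A c n * Dp c n * (c' - c) + (A c n * x) ^ 2)
        = A c n * ((quad c')^[n] x - (Dp c n * (c' - c) + A c n * x ^ 2)) := by ring
    rw [h8, norm_mul]
    have h9 : ‖A c n * Dp c n * (c' - c)‖ = ‖A c n‖ * ‖Dp c n‖ * ‖c' - c‖ := by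
      rw [norm_mul, norm_mul]
    have h10 : ‖A c n * x‖ ^ 2 = ‖A c n‖ ^ 2 * ‖x‖ ^ 2 := by rw [norm_mul, mul_pow]
    rw [h9, h10]
    calc ‖A c n‖ * ‖(quad c')^[n] x - (Dp c n * (c' - c) + A c n * x ^ 2)‖
        ≤ ‖A c n‖ * (1.003 * (1 / 2 * (0.00283 * θ))
            * (‖A c n‖ * T c n * ‖c' - c‖ + ‖A c n‖ * ‖x‖ ^ 2)) := by gcongr
      _ = 1.003 * (1 / 2 * 0.00283) * (‖A c n‖ * (θ * (‖A c n‖ * T c n)) * ‖c' - c‖
            + θ * (‖A c n‖ ^ 2 * ‖x‖ ^ 2)) := by ring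
      _ = 1.003 * (1 / 2 * 0.00283) * (‖A c n‖ * ‖Dp c n‖ * ‖c' - c‖
            + θ * (‖A c n‖ ^ 2 * ‖x‖ ^ 2)) := by rw [hθm]
      _ ≤ 1.003 * (1 / 2 * 0.00283) * (‖A c n‖ * ‖Dp c n‖ * ‖c' - c‖
            + 1 * (‖A c n‖ ^ 2 * ‖x‖ ^ 2)) := by gcongr
      _ ≤ 0.005 * (‖A c n‖ * ‖Dp c n‖ * ‖c' - c‖ + ‖A c n‖ ^ 2 * ‖x‖ ^ 2) := by
          rw [one_mul]
          gcongr
          norm_num
  · -- the parameter derivative
    rw [Dp_eq c' hn, Dp_eq c hn]
    have h3 : ∀ i, 1 ≤ i → i ≤ n → ∏ l ∈ Ico i n, 2 * crit c' l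
        = A c n / A c i * ∏ l ∈ Ico i n, (1 + (crit c' l - crit c l) / crit c l) := by
      intro i hi hin
      rw [← hAi i n hi hin le_rfl, ← Finset.prod_mul_distrib]
      refine Finset.prod_congr rfl fun l hl => ?_
      have := hz l (Finset.Ico_subset_Ico_left hi hl)
      field_simp
      ring
    rw [← Finset.sum_sub_distrib, ← Dp_eq c hn]
    refine (norm_sum_le_of_le
      (n := fun i => 1.003 * (1 * (0.00283 * θ)) * (‖A c n‖ * ‖A c i‖⁻¹)) _ ?_).trans ?_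
    · intro i hi
      rw [Finset.mem_Icc] at hi
      rw [h3 i hi.1 hi.2, hAi i n hi.1 hi.2 le_rfl]
      have h4 : A c n / A c i * ∏ l ∈ Ico i n, (1 + (crit c' l - crit c l) / crit c l)
          - A c n / A c i
          = A c n / A c i * ((∏ l ∈ Ico i n, (1 + (crit c' l - crit c l) / crit c l)) - 1) := by
        ring
      rw [h4, norm_mul, norm_div, div_eq_mul_inv]
      have h7 := hP3 i n hi.1 le_rfl
      calc ‖A c n‖ * ‖A c i‖⁻¹ * ‖(∏ l ∈ Ico i n, (1 + (crit c' l - crit c l) / crit c l)) - 1‖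
          ≤ ‖A c n‖ * ‖A c i‖⁻¹ * (1.003 * (1 * (0.00283 * θ))) := by gcongr
        _ = _ := by ring
    · have h5 : ∑ i ∈ Icc 1 n, 1.003 * (1 * (0.00283 * θ)) * (‖A c n‖ * ‖A c i‖⁻¹)
          = 1.003 * 0.00283 * (θ * (‖A c n‖ * T c n)) := by
        unfold T
        rw [← mul_sum, ← mul_sum]
        ring
      rw [h5, hθm]
      nlinarith
  · refine hs0.trans ?_
    linarith

end Pool.Agent.H98.MB
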