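import Pool.Agent.H51.IR.Box

set_option linter.style.longLine false

/-! A map with a contracting disc around the critical point of period `n` is not renormalizable
with a period larger than `n`. -/

namespace Pool.Agent.H98.MB

open Polynomial Filter Set Topology
open Pool.Agent.H51.IR

/-- iterates of a contraction of a ball -/
theorem dist_iterate {F : ℂ → ℂ} {D : Set ℂ} {L : ℝ} (hL0 : 0 ≤ L)
    (h1 : ∀ z ∈ D, F z ∈ D) (h2 : ∀ z ∈ D, ∀ w ∈ D, ‖F z - F w‖ ≤ L * ‖z - w‖) (m : ℕ) :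
    ∀ z ∈ D, ∀ w ∈ D, F^[m] z ∈ D ∧ F^[m] w ∈ D ∧ ‖F^[m] z - F^[m] w‖ ≤ L ^ m * ‖z - w‖ := by
  induction m with
  | zero => intro z hz w hw; exact ⟨hz, hw, by simp⟩
  | succ m ih =>
    intro z hz w hw
    obtain ⟨h3, h4, h5⟩ := ih z hz w hw
    rw [Function.iterate_succ_apply', Function.iterate_succ_apply']
    refine ⟨h1 _ h3, h1 _ h4, (h2 _ h3 _ h4).trans ?_⟩
    calc L * ‖F^[m] z - F^[m] w‖ ≤ L * (L ^ m * ‖z - w‖) := mul_le_mul_of_nonneg_left h5 hL0
      _ = _ := by ring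

/-- the closure of the critical orbit of a quadratic-like restriction is in the domain -/
theorem closure_orbit_subset {c : ℂ} {p : ℕ} {U : Set ℂ} (h0 : (0 : ℂ) ∈ U)
    (hU : IsQuadLike (iterPoly c p) U) (hn : ∀ n : ℕ, 1 ≤ n → (quad c)^[n * p] 0 ∈ U) :
    closure (range fun k : ℕ => (quad c)^[k * p] 0) ⊆ U := by
  have hall : ∀ k : ℕ, (quad c)^[k * p] 0 ∈ U := by
    intro k
    rcases Nat.eq_zero_or_pos k with rfl | hk
    · simpa using h0
    · exact hn k hk
  have hcl : closure (range fun k : ℕ => (quad c)^[k * p] 0) ⊆ closure U :=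
    closure_mono (range_subset_iff.2 hall)
  intro z hz
  have h1 : (fun z => (iterPoly c p).eval z) z ∈
      closure (range fun k : ℕ => (quad c)^[k * p] 0) := by
    have hcont : Continuous fun z => (iterPoly c p).eval z := (iterPoly c p).continuous
    have h2 : MapsTo (fun z => (iterPoly c p).eval z) (range fun k : ℕ => (quad c)^[k * p] 0)
        (range fun k : ℕ => (quad c)^[k * p] 0) := by
      rintro _ ⟨k, rfl⟩
      exact ⟨k + 1, (eval_orbit c p k).symm⟩
    exact map_mem_closure (f := fun z => (iterPoly c p).eval z) hcont hz h2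
  have h3 : (fun z => (iterPoly c p).eval z) z ∈ (fun z => (iterPoly c p).eval z) '' U :=
    interior_subset (hU.closure_subset (hcl h1))
  exact hU.closure_inter ⟨hcl hz, h3⟩

theorem disc_subset {c : ℂ} {p n : ℕ} {U D : Set ℂ} {L : ℝ} (h0 : (0 : ℂ) ∈ U)
    (hU : IsQuadLike (iterPoly c p) U) (hp : 1 ≤ p)
    (hn : ∀ n : ℕ, 1 ≤ n → (quad c)^[n * p] 0 ∈ U) (hD : IsPreconnected D) (h0D : (0 : ℂ) ∈ D)
    (hDb : Bornology.IsBounded D) (hL0 : 0 ≤ L) (hL1 : L < 1)
    (h1 : ∀ z ∈ D, (quad c)^[n] z ∈ D)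
    (h2 : ∀ z ∈ D, ∀ w ∈ D, ‖(quad c)^[n] z - (quad c)^[n] w‖ ≤ L * ‖z - w‖) : D ⊆ U := by
  set O : Set ℂ := closure (range fun k : ℕ => (quad c)^[k * p] 0) with hO
  have hOU : O ⊆ U := closure_orbit_subset h0 hU hn
  have hOc : IsCompact O := by
    refine Metric.isCompact_of_isClosed_isBounded isClosed_closure ?_
    exact hU.isBounded.subset hOU
  obtain ⟨ε, hε, hεU⟩ := hOc.exists_thickening_subset_open hU.isOpen hOU
  obtain ⟨B, hB⟩ := hDb.exists_norm_le
  have hB0 : 0 ≤ B := (norm_nonneg _).trans (hB 0 h0D)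
  obtain ⟨m, hm⟩ := exists_pow_lt_of_lt_one (show (0 : ℝ) < ε / (B + 1) by positivity) hL1
  -- the image under a high iterate is in `U`
  have key : ∀ z ∈ D, (quad c)^[(n * m) * p] z ∈ U := by
    intro z hz
    apply hεU
    rw [Metric.mem_thickening_iff]
    refine ⟨(quad c)^[(n * m) * p] 0, subset_closure ⟨n * m, rfl⟩, ?_⟩
    have h3 := (dist_iterate hL0 h1 h2 (m * p) z hz 0 h0D).2.2
    rw [← Function.iterate_mul, sub_zero] at h3
    rw [show n * m * p = n * (m * p) by ring, dist_eq_norm]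
    refine h3.trans_lt ?_
    have h4 : L ^ (m * p) ≤ L ^ m := pow_le_pow_of_le_one hL0 hL1.le (Nat.le_mul_of_pos_right m hp)
    calc L ^ (m * p) * ‖z‖ ≤ L ^ m * (B + 1) := by
          refine mul_le_mul h4 ((hB z hz).trans (by linarith)) (norm_nonneg _) (pow_nonneg hL0 _)
      _ < ε / (B + 1) * (B + 1) := mul_lt_mul_of_pos_right hm (by linarith)
      _ = ε := by field_simp
  -- descend
  have hdesc : ∀ k : ℕ, (∀ z ∈ D, (quad c)^[k * p] z ∈ U) → ∀ z ∈ D, z ∈ U := by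
    intro k
    induction k with
    | zero => intro h z hz; simpa using h z hz
    | succ k ih =>
      intro h
      refine ih ?_
      have hV : IsPreconnected ((fun z => (quad c)^[k * p] z) '' D) :=
        hD.image _ (continuous_iterate_right _ c).continuousOn
      have h0k : (quad c)^[k * p] 0 ∈ U := hOU (subset_closure ⟨k, rfl⟩)
      have hsub : (fun z => (quad c)^[k * p] z) '' D ⊆ U := by
        refine hV.subset_of_closure_inter_subset hU.isOpen ⟨_, ⟨0, h0D, rfl⟩, h0k⟩ ?_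
        rintro z ⟨hz, ⟨w, hw, rfl⟩⟩
        have h5 : (iterPoly c p).eval ((quad c)^[k * p] w) ∈ U := by
          rw [eval_iterPoly, ← Function.iterate_add_apply, show p + k * p = (k + 1) * p by ring]
          exact h w hw
        have h6 : (iterPoly c p).eval ((quad c)^[k * p] w) ∈ (fun z => (iterPoly c p).eval z) '' U :=
          interior_subset (hU.closure_subset (subset_closure h5))
        exact hU.closure_inter ⟨hz, h6⟩
      intro z hz
      exact hsub ⟨z, hz, rfl⟩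
  exact hdesc _ key

/-- **A contracting disc of period `n` excludes the renormalization periods above `n`.** -/
theorem not_isRenorm_of_disc {c : ℂ} {n : ℕ} {D : Set ℂ} {L : ℝ}
    (hD : IsPreconnected D) (h0D : (0 : ℂ) ∈ D) (hDb : Bornology.IsBounded D) (hL0 : 0 ≤ L)
    (hL1 : L < 1) (h1 : ∀ z ∈ D, (quad c)^[n] z ∈ D)
    (h2 : ∀ z ∈ D, ∀ w ∈ D, ‖(quad c)^[n] z - (quad c)^[n] w‖ ≤ L * ‖z - w‖)
    (h3 : ∃ z ∈ D, z ≠ 0 ∧ (quad c)^[n] z = 0) {p : ℕ} (hnp : n < p) : ¬ IsRenorm p c := by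
  rintro ⟨hp2, U, h0, hU, hnU, hcrit⟩
  obtain ⟨z, hz, hz0, hzn⟩ := h3
  have hsub := disc_subset h0 hU (by omega) hnU hD h0D hDb hL0 hL1 h1 h2
  refine hz0 (hcrit z (subset_closure (hsub hz)) ?_)
  rw [derivative_iterPoly, Finset.prod_eq_zero (Finset.mem_range.2 hnp) hzn, mul_zero]

/-- so the periods are bounded and the parameter is not infinitely renormalizable -/
theorem notMem_infRenorm_of_disc {c : ℂ} {n : ℕ} {D : Set ℂ} {L : ℝ}
    (hD : IsPreconnected D) (h0D : (0 : ℂ) ∈ D) (hDb : Bornology.IsBounded D) (hL0 : 0 ≤ L)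
    (hL1 : L < 1) (h1 : ∀ z ∈ D, (quad c)^[n] z ∈ D)
    (h2 : ∀ z ∈ D, ∀ w ∈ D, ‖(quad c)^[n] z - (quad c)^[n] w‖ ≤ L * ‖z - w‖)
    (h3 : ∃ z ∈ D, z ≠ 0 ∧ (quad c)^[n] z = 0) : c ∉ infRenorm := by
  intro h
  refine h ((Set.finite_Iic n).subset ?_)
  intro p hp
  by_contra hnp
  exact not_isRenorm_of_disc hD h0D hDb hL0 hL1 h1 h2 h3 (not_le.1 hnp) hp

end Pool.Agent.H98.MB
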